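import Mathlib

/-!
Alternating vectors along paths in bipartite graphs of bounded degree.
-/

set_option autoImplicit false
set_option linter.unusedSectionVars false
open Finset

namespace Q83.Rr

section ball
variable {V : Type} [Fintype V] [DecidableEq V] (G : SimpleGraph V) (D : ℕ)

open Classical in
/-- The neighbours. -/
noncomputable def nb (v : V) : Finset V := univ.filter fun w => G.Adj v w

open Classical in
/-- The balls. -/
noncomputable def bal (u : V) (n : ℕ) : Finset V := univ.filter fun v => G.dist u v ≤ n

lemma bal_succ (hG : G.Preconnected) (u : V) (n : ℕ) :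
    bal G u (n + 1) ⊆ (bal G u n).biUnion fun w => insert w (nb G w) := by
  classical
  intro v hv
  simp only [bal, mem_filter, mem_univ, true_and] at hv
  rw [mem_biUnion]
  by_cases h : G.dist u v ≤ n
  · exact ⟨v, by simpa [bal] using h, mem_insert_self _ _⟩
  · have h1 : G.dist u v = n + 1 := by omega
    obtain ⟨p, hp⟩ := (hG u v).exists_walk_length_eq_dist
    rw [h1] at hp
    refine ⟨p.getVert n, ?_, ?_⟩
    · simp only [bal, mem_filter, mem_univ, true_and]
      refine (SimpleGraph.dist_le (p.take n)).trans ?_
      rw [SimpleGraph.Walk.take_length]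
      omega
    · rw [mem_insert]
      right
      simp only [nb, mem_filter, mem_univ, true_and]
      have h2 := p.adj_getVert_succ (i := n) (by omega)
      have h3 : p.getVert (n + 1) = v := by
        rw [← hp]
        exact p.getVert_length
      rwa [h3] at h2

lemma card_bal (hG : G.Preconnected) (hD : ∀ v, (nb G v).card ≤ D) (u : V) (n : ℕ) :
    (bal G u n).card ≤ (D + 1) ^ n := by
  classical
  induction n with
  | zero =>
    have : bal G u 0 = {u} := by
      ext v
      simp only [bal, mem_filter, mem_univ, true_and, mem_singleton]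
      rw [Nat.le_zero, (hG u v).dist_eq_zero_iff]
      exact eq_comm
    rw [this]
    simp
  | succ n ih =>
    refine (card_le_card (bal_succ G hG u n)).trans ?_
    refine (card_biUnion_le_card_mul _ _ (D + 1) fun w _ => ?_).trans ?_
    · exact (card_insert_le _ _).trans (by have := hD w; omega)
    · rw [pow_succ]
      exact Nat.mul_le_mul_right _ ih

/-- Long paths exist. -/
lemma exists_path (hG : G.Preconnected) (hD : ∀ v, (nb G v).card ≤ D) (L : ℕ)
    (hL : (D + 1) ^ L < Fintype.card V) (u : V) :
    ∃ (v : V) (p : G.Walk u v), p.IsPath ∧ p.length = L := by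
  classical
  have h1 : ∃ v, v ∉ bal G u L := by
    by_contra hc
    push Not at hc
    have : bal G u L = univ := eq_univ_of_forall hc
    have h2 := card_bal G D hG hD u L
    rw [this, card_univ] at h2
    omega
  obtain ⟨v, hv⟩ := h1
  simp only [bal, mem_filter, mem_univ, true_and, not_le] at hv
  obtain ⟨p, hp⟩ := (hG u v).exists_walk_length_eq_dist
  have hpath := p.isPath_of_length_eq_dist hp
  refine ⟨_, p.take L, hpath.take L, ?_⟩
  rw [SimpleGraph.Walk.take_length]
  omega

end ball

section val
variable {ι V : Type} [Fintype ι] [DecidableEq V] (e : ι → Sym2 V)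

/-- The graph of a family of edges. -/
def Gr : SimpleGraph V := SimpleGraph.fromEdgeSet (Set.range e)

lemma adj_iff (u v : V) : (Gr e).Adj u v ↔ (∃ i, e i = s(u, v)) ∧ u ≠ v := by
  unfold Gr
  rw [SimpleGraph.fromEdgeSet_adj]
  rfl

/-- The alternating vector along a walk. -/
def val : ∀ {u v : V}, (Gr e).Walk u v → ι → ℂ
  | _, _, .nil => fun _ => 0
  | _, _, .cons (u := u) (v := v) _ w => fun i => (if e i = s(u, v) then 1 else 0) - val w i

/-- The incidence map. -/
def inc (f : ι → ℂ) (x : V) : ℂ := ∑ i, if x ∈ e i then f i else 0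

lemma inc_sub (f g : ι → ℂ) (x : V) : inc e (fun i => f i - g i) x = inc e f x - inc e g x := by
  unfold inc
  rw [← sum_sub_distrib]
  refine sum_congr rfl fun i _ => ?_
  split_ifs <;> simp

lemma inc_edge (he : Function.Injective e) {u v : V} (h : (Gr e).Adj u v) (x : V) :
    inc e (fun i => if e i = s(u, v) then 1 else 0) x = (if x = u then 1 else 0) + if x = v then 1 else 0 := by
  rw [adj_iff] at h
  obtain ⟨⟨i0, hi0⟩, huv⟩ := h
  unfold inc
  simp only
  rw [sum_eq_single i0]
  · rw [if_pos hi0, hi0]
    simp only [Sym2.mem_iff]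
    by_cases h1 : x = u
    · have h2 : x ≠ v := fun h => huv (h1.symm.trans h)
      simp [h1, huv]
    · by_cases h2 : x = v <;> simp [h1, h2, huv.symm]
  · intro i _ hi
    have : e i ≠ s(u, v) := fun h => hi (he (h.trans hi0.symm))
    rw [if_neg this]
    simp
  · intro h
    exact (h (mem_univ _)).elim

lemma inc_val (he : Function.Injective e) {u v : V} (w : (Gr e).Walk u v) (x : V) :
    inc e (val e w) x = (if x = u then 1 else 0) - (-1) ^ w.length * if x = v then 1 else 0 := by
  induction w with
  | nil =>
    unfold val inc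
    simp
  | cons h w ih =>
    have h1 : val e (SimpleGraph.Walk.cons h w) = fun i =>
      (if e i = s(_, _) then 1 else 0) - val e w i := rfl
    rw [h1, inc_sub, ih, inc_edge e he h, SimpleGraph.Walk.length_cons, pow_succ]
    ring

lemma val_support {u v : V} (w : (Gr e).Walk u v) (i : ι) (h : e i ∉ w.edges) : val e w i = 0 := by
  induction w with
  | nil => rfl
  | cons h' w ih =>
    rw [SimpleGraph.Walk.edges_cons, List.mem_cons, not_or] at h
    unfold val
    rw [ih h.2, if_neg h.1, sub_zero]

lemma sum_edge (he : Function.Injective e) {u v : V} (h : (Gr e).Adj u v) :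
    ∑ i, (if e i = s(u, v) then (1 : ℝ) else 0) = 1 := by
  rw [adj_iff] at h
  obtain ⟨⟨i0, hi0⟩, huv⟩ := h
  rw [sum_eq_single i0]
  · rw [if_pos hi0]
  · intro i _ hi
    exact if_neg fun h => hi (he (h.trans hi0.symm))
  · intro h
    exact (h (mem_univ _)).elim

lemma sum_val (he : Function.Injective e) {u v : V} (w : (Gr e).Walk u v) :
    ∑ i, ‖val e w i‖ ≤ w.length := by
  induction w with
  | nil => simp [val]
  | cons h w ih =>
    rename_i a b _
    have h1 : ∀ i, ‖val e (SimpleGraph.Walk.cons h w) i‖ ≤
        (if e i = s(a, b) then (1 : ℝ) else 0) + ‖val e w i‖ := by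
      intro i
      have h2 : val e (SimpleGraph.Walk.cons h w) i = (if e i = s(a, b) then 1 else 0) - val e w i := rfl
      rw [h2]
      refine (norm_sub_le _ _).trans ?_
      split_ifs <;> simp
    refine (sum_le_sum fun i _ => h1 i).trans ?_
    rw [sum_add_distrib, sum_edge e he h, SimpleGraph.Walk.length_cons]
    push_cast
    linarith

lemma sum_sq_val (he : Function.Injective e) {u v : V} (w : (Gr e).Walk u v) (hw : w.IsTrail) :
    ∑ i, ‖val e w i‖ ^ 2 = w.length := by
  induction w with
  | nil => simp [val]
  | cons h w ih =>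
    rename_i a b _
    rw [SimpleGraph.Walk.isTrail_cons] at hw
    have h1 : ∀ i, ‖val e (SimpleGraph.Walk.cons h w) i‖ ^ 2 =
        (if e i = s(a, b) then (1 : ℝ) else 0) + ‖val e w i‖ ^ 2 := by
      intro i
      have h2 : val e (SimpleGraph.Walk.cons h w) i = (if e i = s(a, b) then 1 else 0) - val e w i := rfl
      rw [h2]
      by_cases h3 : e i = s(a, b)
      · rw [if_pos h3, if_pos h3, val_support e w i (by rw [h3]; exact hw.2)]
        simp
      · rw [if_neg h3, if_neg h3]
        simp
    rw [sum_congr rfl fun i _ => h1 i, sum_add_distrib, sum_edge e he h, ih hw.1,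
      SimpleGraph.Walk.length_cons]
    push_cast
    ring

lemma card_nb [Fintype V] (v : V) :
    (nb (Gr e) v).card ≤ (univ.filter fun i => v ∈ e i).card := by
  classical
  apply card_le_card_of_surjOn (fun i => if h : v ∈ e i then Sym2.Mem.other' h else v)
  intro w hw
  simp only [nb, coe_filter, mem_univ, true_and, Set.mem_ofPred_eq, adj_iff] at hw
  obtain ⟨⟨i, hi⟩, hvw⟩ := hw
  have h1 : v ∈ e i := by
    rw [hi]
    exact Sym2.mem_mk_left v w
  refine ⟨i, by simpa using h1, ?_⟩
  simp only
  rw [dif_pos h1]
  have h2 := (Sym2.other_spec' h1).trans hi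
  exact Sym2.congr_right.1 h2

end val

end Q83.Rr
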