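import Pool.Agent.Q83.Rr.Main

/-!
The key estimate.
-/

set_option autoImplicit false
set_option linter.unusedSectionVars false
open Finset

namespace Q83.Rr

variable {p : ℕ} [Fact p.Prime]


/-- The set of the problem. -/
def EE (p : ℕ) [Fact p.Prime] : Finset (ZMod p × ZMod p) :=
  univ.filter fun x => x.1 = 0 ∨ x.1 = x.2 ∨ x = (1, 0)

/-- The values of the exponential sums. -/
noncomputable def FF (B : Finset (ZMod p × ZMod p)) (v : B → ℂ) (x : ZMod p × ZMod p) : ℂ :=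
  ∑ b : B, v b * ZMod.stdAddChar (b.1.1 * x.1 + b.1.2 * x.2)

/-- The edges. -/
def ed (B : Finset (ZMod p × ZMod p)) (b : B) : Sym2 (ZMod p ⊕ ZMod p) :=
  s(Sum.inl b.1.2, Sum.inr (b.1.1 + b.1.2))

variable (B : Finset (ZMod p × ZMod p))

lemma ed_inj : Function.Injective (ed B) := by
  intro b b' h
  unfold ed at h
  rw [Sym2.eq_iff] at h
  rcases h with ⟨h1, h2⟩ | ⟨h1, h2⟩
  · have h3 := Sum.inl.inj h1
    have h4 := Sum.inr.inj h2
    apply Subtype.ext
    apply Prod.ext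
    · rw [h3] at h4
      exact add_right_cancel h4
    · exact h3
  · exact (Sum.inl_ne_inr h1).elim

lemma mem_ed_inl (b : B) (d : ZMod p) : Sum.inl d ∈ ed B b ↔ b.1.2 = d := by
  unfold ed
  rw [Sym2.mem_iff]
  constructor
  · rintro (h | h)
    · exact (Sum.inl.inj h).symm
    · exact (Sum.inl_ne_inr h).elim
  · rintro rfl
    exact Or.inl rfl

lemma mem_ed_inr (b : B) (d : ZMod p) : Sum.inr d ∈ ed B b ↔ b.1.1 + b.1.2 = d := by
  unfold ed
  rw [Sym2.mem_iff]
  constructor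
  · rintro (h | h)
    · exact (Sum.inr_ne_inl h).elim
    · exact (Sum.inr.inj h).symm
  · rintro rfl
    exact Or.inr rfl

lemma FF_left (v : B → ℂ) (y : ZMod p) : FF B v (0, y) = ∑ b : B, v b * ZMod.stdAddChar (b.1.2 * y) := by
  unfold FF
  simp

lemma FF_right (v : B → ℂ) (t : ZMod p) :
    FF B v (t, t) = ∑ b : B, v b * ZMod.stdAddChar ((b.1.1 + b.1.2) * t) := by
  unfold FF
  simp_rw [add_mul]

lemma sum_left (v : B → ℂ) :
    ∑ y : ZMod p, ‖FF B v (0, y)‖ ^ 2 = p * ∑ d : ZMod p, ‖inc (ed B) v (Sum.inl d)‖ ^ 2 := by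
  simp_rw [FF_left, parseval]
  unfold inc
  simp_rw [mem_ed_inl]

lemma sum_right (v : B → ℂ) :
    ∑ t : ZMod p, ‖FF B v (t, t)‖ ^ 2 = p * ∑ d : ZMod p, ‖inc (ed B) v (Sum.inr d)‖ ^ 2 := by
  simp_rw [FF_right, parseval]
  unfold inc
  simp_rw [mem_ed_inr]

lemma left_le (v : B → ℂ) :
    ∑ y : ZMod p, ‖FF B v (0, y)‖ ^ 2 ≤ ∑ x ∈ EE p, ‖FF B v x‖ ^ 2 := by
  classical
  rw [← sum_image (s := univ) (g := fun y : ZMod p => ((0, y) : ZMod p × ZMod p))
    (f := fun x => ‖FF B v x‖ ^ 2) (fun y _ y' _ h => (Prod.mk.inj h).2)]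
  apply sum_le_sum_of_subset_of_nonneg
  · intro x hx
    rw [mem_image] at hx
    obtain ⟨y, _, rfl⟩ := hx
    simp [EE]
  · intro x _ _
    positivity

lemma right_le (v : B → ℂ) :
    ∑ t : ZMod p, ‖FF B v (t, t)‖ ^ 2 ≤ ∑ x ∈ EE p, ‖FF B v x‖ ^ 2 := by
  classical
  rw [← sum_image (s := univ) (g := fun y : ZMod p => ((y, y) : ZMod p × ZMod p))
    (f := fun x => ‖FF B v x‖ ^ 2) (fun y _ y' _ h => (Prod.mk.inj h).2)]
  apply sum_le_sum_of_subset_of_nonneg
  · intro x hx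
    rw [mem_image] at hx
    obtain ⟨y, _, rfl⟩ := hx
    simp [EE]
  · intro x _ _
    positivity

lemma le_three (v : B → ℂ) :
    ∑ x ∈ EE p, ‖FF B v x‖ ^ 2 ≤ ∑ y : ZMod p, ‖FF B v (0, y)‖ ^ 2 +
      ∑ t : ZMod p, ‖FF B v (t, t)‖ ^ 2 + ‖FF B v (1, 0)‖ ^ 2 := by
  classical
  rw [← sum_image (s := univ) (g := fun y : ZMod p => ((0, y) : ZMod p × ZMod p))
    (f := fun x => ‖FF B v x‖ ^ 2) (fun y _ y' _ h => (Prod.mk.inj h).2),
    ← sum_image (s := univ) (g := fun y : ZMod p => ((y, y) : ZMod p × ZMod p))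
    (f := fun x => ‖FF B v x‖ ^ 2) (fun y _ y' _ h => (Prod.mk.inj h).2),
    ← sum_singleton (fun x => ‖FF B v x‖ ^ 2) (1, 0)]
  have hle : ∀ s t : Finset (ZMod p × ZMod p), ∑ x ∈ s ∪ t, ‖FF B v x‖ ^ 2 ≤
      ∑ x ∈ s, ‖FF B v x‖ ^ 2 + ∑ x ∈ t, ‖FF B v x‖ ^ 2 := by
    intro s t
    rw [← sum_union_inter]
    have : 0 ≤ ∑ x ∈ s ∩ t, ‖FF B v x‖ ^ 2 := sum_nonneg fun x _ => by positivity
    linarith
  refine le_trans (sum_le_sum_of_subset_of_nonneg (t := ((univ.image fun y : ZMod p => ((0, y) : ZMod p × ZMod p)) ∪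
    (univ.image fun y : ZMod p => ((y, y) : ZMod p × ZMod p))) ∪ {(1, 0)}) ?_ ?_) ?_
  · intro x hx
    simp only [EE, mem_filter, mem_univ, true_and] at hx
    rw [mem_union, mem_union, mem_image, mem_image, mem_singleton]
    rcases hx with h | h | h
    · exact Or.inl (Or.inl ⟨x.2, mem_univ _, Prod.ext h.symm rfl⟩)
    · exact Or.inl (Or.inr ⟨x.1, mem_univ _, Prod.ext rfl h⟩)
    · exact Or.inr h
  · intro x _ _
    positivity
  · exact (hle _ _).trans (add_le_add (hle _ _) le_rfl)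

/-- Bounded degrees. -/
lemma degree (C : ℝ) (hC : 0 ≤ C)
    (H2 : ∀ v : B → ℂ, ∑ x ∈ EE p, ‖FF B v x‖ ^ 2 ≤ 2 * p * C * ∑ b, ‖v b‖ ^ 2)
    (x : ZMod p ⊕ ZMod p) : ((univ.filter fun b : B => x ∈ ed B b).card : ℝ) ≤ 2 * C := by
  classical
  have hp : (0 : ℝ) < p := by
    have := (Fact.out : p.Prime).pos
    exact_mod_cast this
  set D := (univ.filter fun b : B => x ∈ ed B b).card with hD
  set v : B → ℂ := fun b => if x ∈ ed B b then 1 else 0 with hv
  have h1 : ∑ b, ‖v b‖ ^ 2 = D := by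
    have : ∀ b, ‖v b‖ ^ 2 = if x ∈ ed B b then (1 : ℝ) else 0 := by
      intro b
      rw [hv]
      simp only
      split_ifs <;> simp
    simp_rw [this]
    rw [sum_boole]
  have h2 : inc (ed B) v x = D := by
    unfold inc
    have : ∀ b, (if x ∈ ed B b then v b else 0) = if x ∈ ed B b then (1 : ℂ) else 0 := by
      intro b
      rw [hv]
      simp only
      split_ifs <;> simp
    simp_rw [this]
    rw [sum_boole]
  have h3 : (p : ℝ) * (D : ℝ) ^ 2 ≤ 2 * p * C * D := by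
    rw [← h1]
    refine le_trans ?_ (H2 v)
    rw [h1]
    have h4 : (D : ℝ) ^ 2 = ‖inc (ed B) v x‖ ^ 2 := by
      rw [h2]
      simp
    rw [h4]
    rcases x with d | d
    · refine le_trans ?_ (left_le B v)
      rw [sum_left]
      gcongr
      exact single_le_sum (f := fun d => ‖inc (ed B) v (Sum.inl d)‖ ^ 2)
        (fun d _ => by positivity) (mem_univ d)
    · refine le_trans ?_ (right_le B v)
      rw [sum_right]
      gcongr
      exact single_le_sum (f := fun d => ‖inc (ed B) v (Sum.inr d)‖ ^ 2)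
        (fun d _ => by positivity) (mem_univ d)
  by_cases hD0 : D = 0
  · rw [hD0]
    push_cast
    linarith
  · have h5 : (0 : ℝ) < D := by
      have := Nat.pos_of_ne_zero hD0
      exact_mod_cast this
    have h6 : (p : ℝ) * D * D ≤ (p * D) * (2 * C) := by nlinarith
    exact le_of_mul_le_mul_left h6 (by positivity)

/-- The graph is connected. -/
lemma connected (H3 : ∀ w : ZMod p × ZMod p → ℂ, ∃ v : B → ℂ, ∀ x ∈ EE p, FF B v x = w x) :
    (Gr (ed B)).Preconnected := by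
  classical
  intro u
  set S : Set (ZMod p ⊕ ZMod p) := {x | (Gr (ed B)).Reachable u x} with hS
  set α : ZMod p → ℂ := fun d => if Sum.inl d ∈ S then 1 else 0 with hα
  set β : ZMod p → ℂ := fun d => if Sum.inr d ∈ S then 1 else 0 with hβ
  have hαβ : ∀ b : B, α b.1.2 = β (b.1.1 + b.1.2) := by
    intro b
    have hadj : (Gr (ed B)).Adj (Sum.inl b.1.2) (Sum.inr (b.1.1 + b.1.2)) := by
      rw [adj_iff]
      exact ⟨⟨b, rfl⟩, Sum.inl_ne_inr⟩
    have : Sum.inl b.1.2 ∈ S ↔ Sum.inr (b.1.1 + b.1.2) ∈ S :=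
      ⟨fun h => SimpleGraph.Reachable.trans h hadj.reachable,
        fun h => SimpleGraph.Reachable.trans h hadj.symm.reachable⟩
    rw [hα, hβ]
    simp only [this]
  set α' : ZMod p → ℂ := fun y => (p : ℂ)⁻¹ * ∑ d' : ZMod p, α d' * ZMod.stdAddChar (-(d' * y)) with hα'
  set β' : ZMod p → ℂ := fun y => (p : ℂ)⁻¹ * ∑ d' : ZMod p, β d' * ZMod.stdAddChar (-(d' * y)) with hβ'
  have hinvα : ∀ d, ∑ y, α' y * ZMod.stdAddChar (d * y) = α d := inversion α
  have hinvβ : ∀ d, ∑ y, β' y * ZMod.stdAddChar (d * y) = β d := inversion β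
  -- the relation
  have hrel : ∀ v : B → ℂ, ∑ y, α' y * FF B v (0, y) = ∑ t, β' t * FF B v (t, t) := by
    intro v
    have h1 : ∑ y, α' y * FF B v (0, y) = ∑ b : B, v b * α b.1.2 := by
      simp_rw [FF_left, mul_sum]
      rw [sum_comm]
      refine sum_congr rfl fun b _ => ?_
      rw [← hinvα, mul_sum]
      refine sum_congr rfl fun y _ => by ring
    have h2 : ∑ y, β' y * FF B v (y, y) = ∑ b : B, v b * β (b.1.1 + b.1.2) := by
      simp_rw [FF_right, mul_sum]
      rw [sum_comm]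
      refine sum_congr rfl fun b _ => ?_
      rw [← hinvβ, mul_sum]
      refine sum_congr rfl fun y _ => by ring
    rw [h1, h2]
    exact sum_congr rfl fun b _ => by rw [hαβ]
  have hE0 : ∀ y : ZMod p, ((0, y) : ZMod p × ZMod p) ∈ EE p := fun y => by simp [EE]
  have hE1 : ∀ y : ZMod p, ((y, y) : ZMod p × ZMod p) ∈ EE p := fun y => by simp [EE]
  have hα0 : ∀ y, y ≠ 0 → α' y = 0 := by
    intro y hy
    obtain ⟨v, hv⟩ := H3 (fun x => if x = (0, y) then 1 else 0)
    have h := hrel v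
    simp_rw [hv _ (hE0 _), hv _ (hE1 _)] at h
    rw [sum_eq_single y, sum_eq_zero] at h
    · simpa using h
    · intro t _
      rw [if_neg]
      · simp
      · intro h'
        have := Prod.mk.inj h'
        exact hy (this.2.symm.trans this.1)
    · intro y' _ hy'
      rw [if_neg]
      · simp
      · intro h'
        exact hy' (Prod.mk.inj h').2
    · intro h'
      exact (h' (mem_univ _)).elim
  have hβ0 : ∀ y, y ≠ 0 → β' y = 0 := by
    intro y hy
    obtain ⟨v, hv⟩ := H3 (fun x => if x = (y, y) then 1 else 0)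
    have h := hrel v
    simp_rw [hv _ (hE0 _), hv _ (hE1 _)] at h
    rw [sum_eq_zero, sum_eq_single y] at h
    · simpa using h.symm
    · intro y' _ hy'
      rw [if_neg]
      · simp
      · intro h'
        exact hy' (Prod.mk.inj h').2
    · intro h'
      exact (h' (mem_univ _)).elim
    · intro t _
      rw [if_neg]
      · simp
      · intro h'
        exact hy (Prod.mk.inj h').1.symm
  have hαβ0 : α' 0 = β' 0 := by
    obtain ⟨v, hv⟩ := H3 (fun x => if x = (0, 0) then 1 else 0)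
    have h := hrel v
    simp_rw [hv _ (hE0 _), hv _ (hE1 _)] at h
    rw [sum_eq_single 0, sum_eq_single 0] at h
    · simpa using h
    · intro y' _ hy'
      rw [if_neg]
      · simp
      · intro h'
        exact hy' (Prod.mk.inj h').2
    · intro h'
      exact (h' (mem_univ _)).elim
    · intro y' _ hy'
      rw [if_neg]
      · simp
      · intro h'
        exact hy' (Prod.mk.inj h').2
    · intro h'
      exact (h' (mem_univ _)).elim
  have hαc : ∀ d, α d = α' 0 := by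
    intro d
    rw [← hinvα d, sum_eq_single 0]
    · simp
    · intro y _ hy
      rw [hα0 y hy, zero_mul]
    · intro h'
      exact (h' (mem_univ _)).elim
  have hβc : ∀ d, β d = α' 0 := by
    intro d
    rw [← hinvβ d, sum_eq_single 0]
    · simp [hαβ0]
    · intro y _ hy
      rw [hβ0 y hy, zero_mul]
    · intro h'
      exact (h' (mem_univ _)).elim
  have huS : u ∈ S := SimpleGraph.Reachable.refl u
  have hone : α' 0 = 1 := by
    rcases u with d | d
    · rw [← hαc d, hα]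
      exact if_pos huS
    · rw [← hβc d, hβ]
      exact if_pos huS
  intro x
  rcases x with d | d
  · by_contra hc
    have h1 := hαc d
    rw [hone, hα] at h1
    simp only at h1
    rw [if_neg (show Sum.inl d ∉ S from hc)] at h1
    exact zero_ne_one h1
  · by_contra hc
    have h1 := hβc d
    rw [hone, hβ] at h1
    simp only at h1
    rw [if_neg (show Sum.inr d ∉ S from hc)] at h1
    exact zero_ne_one h1

/-- The key estimate. -/
theorem key (C : ℝ) (hC : 0 ≤ C)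
    (H1 : ∀ v : B → ℂ, 2 * p * ∑ b, ‖v b‖ ^ 2 ≤ C * ∑ x ∈ EE p, ‖FF B v x‖ ^ 2)
    (H2 : ∀ v : B → ℂ, ∑ x ∈ EE p, ‖FF B v x‖ ^ 2 ≤ 2 * p * C * ∑ b, ‖v b‖ ^ 2)
    (H3 : ∀ w : ZMod p × ZMod p → ℂ, ∃ v : B → ℂ, ∀ x ∈ EE p, FF B v x = w x)
    (L D : ℕ) (hD : 2 * C ≤ D) (hp : (D + 1) ^ L < 2 * p) : (L : ℝ) ≤ 2 * C + C * L ^ 2 / (2 * p) := by
  classical
  have hp0 : (0 : ℝ) < p := by
    have := (Fact.out : p.Prime).pos
    exact_mod_cast this
  have hconn := connected B H3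
  have hdeg : ∀ x, (nb (Gr (ed B)) x).card ≤ D := by
    intro x
    have h1 := degree B C hC H2 x
    have h2 := card_nb (ed B) x
    have h3 : ((univ.filter fun b : B => x ∈ ed B b).card : ℝ) ≤ D := h1.trans hD
    have h4 : (univ.filter fun b : B => x ∈ ed B b).card ≤ D := by exact_mod_cast h3
    exact h2.trans h4
  have hcard : Fintype.card (ZMod p ⊕ ZMod p) = 2 * p := by
    rw [Fintype.card_sum, ZMod.card]
    ring
  obtain ⟨y, w, hw, hwL⟩ := exists_path (Gr (ed B)) D hconn hdeg L (by rw [hcard]; exact hp)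
    (Sum.inl 0)
  set v := val (ed B) w with hv
  have h1 : ∑ b, ‖v b‖ ^ 2 = L := by
    rw [hv, sum_sq_val (ed B) (ed_inj B) w hw.isTrail, hwL]
  have h2 : ∑ b, ‖v b‖ ≤ L := by
    rw [← hwL]
    exact sum_val (ed B) (ed_inj B) w
  have h3 : ‖FF B v (1, 0)‖ ≤ L := by
    refine le_trans ?_ h2
    unfold FF
    refine (norm_sum_le _ _).trans ?_
    refine sum_le_sum fun b _ => ?_
    rw [norm_mul, norm_chi, mul_one]
  have h4 : ∑ d : ZMod p, ‖inc (ed B) v (Sum.inl d)‖ ^ 2 +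
      ∑ d : ZMod p, ‖inc (ed B) v (Sum.inr d)‖ ^ 2 ≤ 4 := by
    have h5 : ∑ d : ZMod p, ‖inc (ed B) v (Sum.inl d)‖ ^ 2 +
      ∑ d : ZMod p, ‖inc (ed B) v (Sum.inr d)‖ ^ 2 = ∑ x, ‖inc (ed B) v x‖ ^ 2 := by
      rw [Fintype.sum_sum_type]
    rw [h5]
    have h6 : ∀ x, ‖inc (ed B) v x‖ ^ 2 ≤ (if x = Sum.inl 0 then (2 : ℝ) else 0) +
        if x = y then (2 : ℝ) else 0 := by
      intro x
      rw [hv, inc_val (ed B) (ed_inj B) w x]
      have h7 : ‖((-1 : ℂ)) ^ w.length‖ = 1 := by simp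
      by_cases hx1 : x = Sum.inl 0
      · by_cases hx2 : x = y
        · rw [if_pos hx1, if_pos hx2, if_pos hx1, if_pos hx2]
          have : ‖(1 : ℂ) - (-1) ^ w.length * 1‖ ≤ 2 := by
            refine (norm_sub_le _ _).trans ?_
            rw [mul_one, h7, norm_one]
            norm_num
          nlinarith [norm_nonneg ((1 : ℂ) - (-1) ^ w.length * 1)]
        · rw [if_pos hx1, if_neg hx2, if_pos hx1, if_neg hx2]
          simp
      · by_cases hx2 : x = y
        · rw [if_neg hx1, if_pos hx2, if_neg hx1, if_pos hx2]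
          simp
        · rw [if_neg hx1, if_neg hx2, if_neg hx1, if_neg hx2]
          simp
    refine (sum_le_sum fun x _ => h6 x).trans ?_
    rw [sum_add_distrib, sum_ite_eq', sum_ite_eq', if_pos (mem_univ _), if_pos (mem_univ _)]
    norm_num
  have h8 : ∑ x ∈ EE p, ‖FF B v x‖ ^ 2 ≤ p * 4 + L ^ 2 := by
    refine (le_three B v).trans ?_
    rw [sum_left, sum_right, ← mul_add]
    have h9 : ‖FF B v (1, 0)‖ ^ 2 ≤ (L : ℝ) ^ 2 := pow_le_pow_left₀ (norm_nonneg _) h3 2
    have h10 := mul_le_mul_of_nonneg_left h4 hp0.le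
    linarith
  have h11 := H1 v
  rw [h1] at h11
  have h12 : 2 * p * (L : ℝ) ≤ C * (p * 4 + L ^ 2) := h11.trans (mul_le_mul_of_nonneg_left h8 hC)
  have h13 : (2 * C + C * L ^ 2 / (2 * p)) * (2 * p) = C * (p * 4 + L ^ 2) := by
    field_simp
    ring
  have h14 : (L : ℝ) * (2 * p) ≤ (2 * C + C * L ^ 2 / (2 * p)) * (2 * p) := by
    rw [h13]
    linarith
  exact le_of_mul_le_mul_right h14 (by positivity)

end Q83.Rr
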