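import Pool.Agent.Q83.Rr.Graph

/-!
The evaluation matrices of the double line sets.
-/

set_option autoImplicit false
set_option linter.unusedSectionVars false
open Finset

namespace Q83.Rr

variable {p : ℕ} [Fact p.Prime]


lemma norm_chi (x : ZMod p) : ‖ZMod.stdAddChar x‖ = 1 := by
  rw [ZMod.stdAddChar_apply]
  exact Circle.norm_coe _

lemma conj_chi (x : ZMod p) : (starRingEnd ℂ) (ZMod.stdAddChar x) = ZMod.stdAddChar (-x) := by
  rw [ZMod.stdAddChar_apply, ZMod.stdAddChar_apply, AddChar.map_neg_eq_inv, Circle.coe_inv_eq_conj]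

lemma sum_chi (a : ZMod p) : ∑ y : ZMod p, ZMod.stdAddChar (a * y) = if a = 0 then (p : ℂ) else 0 := by
  have h := AddChar.sum_mulShift (ψ := ZMod.stdAddChar) a (ZMod.isPrimitive_stdAddChar p)
  rw [ZMod.card, Nat.cast_ite, Nat.cast_zero] at h
  rw [← h]
  refine sum_congr rfl fun y _ => ?_
  rw [mul_comm]

/-- Parseval on the cyclic group. -/
lemma parseval {ι : Type} [Fintype ι] (l : ι → ZMod p) (v : ι → ℂ) :
    ∑ y : ZMod p, ‖∑ i, v i * ZMod.stdAddChar (l i * y)‖ ^ 2 = p * ∑ d : ZMod p, ‖∑ i, if l i = d then v i else 0‖ ^ 2 := by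
  classical
  have h1 : ∀ z : ℂ, ((‖z‖ ^ 2 : ℝ) : ℂ) = z * (starRingEnd ℂ) z := by
    intro z
    rw [Complex.mul_conj, Complex.normSq_eq_norm_sq]
  have h2 : ((∑ y : ZMod p, ‖∑ i, v i * ZMod.stdAddChar (l i * y)‖ ^ 2 : ℝ) : ℂ) =
      ((p * ∑ d : ZMod p, ‖∑ i, if l i = d then v i else 0‖ ^ 2 : ℝ) : ℂ) := by
    rw [Complex.ofReal_sum, Complex.ofReal_mul, Complex.ofReal_sum]
    simp_rw [h1, map_sum, sum_mul_sum, map_mul, conj_chi]
    rw [sum_comm, mul_sum]
    have h3 : ∀ i : ι, ∑ y : ZMod p, ∑ j, v i * ZMod.stdAddChar (l i * y) * ((starRingEnd ℂ) (v j) * ZMod.stdAddChar (-(l j * y))) =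
        ∑ j, v i * (starRingEnd ℂ) (v j) * if l i - l j = 0 then (p : ℂ) else 0 := by
      intro i
      rw [sum_comm]
      refine sum_congr rfl fun j _ => ?_
      rw [← sum_chi, mul_sum]
      refine sum_congr rfl fun y _ => ?_
      rw [sub_mul, sub_eq_add_neg, AddChar.map_add_eq_mul]
      ring
    rw [sum_congr rfl fun i _ => h3 i]
    have h4 : ∀ d : ZMod p, ((p : ℝ) : ℂ) * ∑ i, ∑ j, (if l i = d then v i else 0) *
        (starRingEnd ℂ) (if l j = d then v j else 0) =
        ∑ i, if l i = d then (∑ j, v i * (starRingEnd ℂ) (v j) * if l i - l j = 0 then (p : ℂ) else 0) else 0 := by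
      intro d
      rw [mul_sum]
      refine sum_congr rfl fun i _ => ?_
      by_cases hi : l i = d
      · rw [if_pos hi, if_pos hi, mul_sum]
        refine sum_congr rfl fun j _ => ?_
        rw [hi]
        by_cases hj : d - l j = 0
        · rw [if_pos hj, if_pos (sub_eq_zero.1 hj).symm]
          push_cast
          ring
        · rw [if_neg hj, if_neg (fun h => hj (sub_eq_zero.2 h.symm))]
          simp
      · rw [if_neg hi, if_neg hi]
        simp
    rw [sum_congr rfl fun d _ => h4 d]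
    conv_rhs => rw [sum_comm]
    refine sum_congr rfl fun i _ => ?_
    rw [sum_ite_eq, if_pos (mem_univ _)]
  exact_mod_cast h2

/-- Fourier inversion on the cyclic group. -/
lemma inversion (α : ZMod p → ℂ) (d : ZMod p) :
    ∑ y : ZMod p, ((p : ℂ)⁻¹ * ∑ d' : ZMod p, α d' * ZMod.stdAddChar (-(d' * y))) * ZMod.stdAddChar (d * y) = α d := by
  classical
  have hp : (p : ℂ) ≠ 0 := by
    have := (Fact.out : p.Prime).ne_zero
    exact_mod_cast this
  have h1 : ∀ y : ZMod p, ((p : ℂ)⁻¹ * ∑ d' : ZMod p, α d' * ZMod.stdAddChar (-(d' * y))) * ZMod.stdAddChar (d * y) =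
      ∑ d' : ZMod p, (p : ℂ)⁻¹ * α d' * ZMod.stdAddChar ((d - d') * y) := by
    intro y
    rw [mul_sum, sum_mul]
    refine sum_congr rfl fun d' _ => ?_
    rw [sub_mul, sub_eq_add_neg, AddChar.map_add_eq_mul]
    ring
  rw [sum_congr rfl fun y _ => h1 y, sum_comm]
  simp_rw [← mul_sum, sum_chi, sub_eq_zero]
  simp only [mul_ite, mul_zero, sum_ite_eq, mem_univ, if_true]
  field_simp

end Q83.Rr
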